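import Mathlib

/-!
# Cancellation can fail for equidecomposability with restricted pieces

Problem MP_3fd8c4_al, Q1.  Let `G` act on `X` and let `𝒜` be a `G`-invariant subalgebra of the
power set of `X`.  We build the semigroup `𝒮(𝒜)` of types of equidecomposability with pieces in `𝒜`
(`Types 𝒜`, a commutative monoid) and show that the cancellation law `nα = nβ → α = β` fails in
it for the group `D θ` generated by the reflections `r : x ↦ -x` and `s : x ↦ θ - x` of the circle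
`ℝ/ℤ`, `θ` irrational, and for every invariant algebra `𝒜` between the Borel sets and the
Lebesgue measurable sets.

Outline.  We may assume `0 < θ < 1/2`; put `b = θ/2`.  Up to a countable invariant set of points,
the arc `A = (b, 1/2)` is cut at `1/2 - b` into `A₁, A₂` and at `2b` into `A₃, A₄`, while
`B = (b + 1/2, 1)` is cut at `1 - b` into `r A₁` and `r s A₄` and at `2b + 1/2` into `s r A₂` and
`s A₃`.  Hence `2[A] = 2[B]`.  If `[A] = [B]`, then `1_A - 1_B = (v - v∘r) + (w - w∘s)` with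
measurable integer valued `v, w`.  As `2(1_A - 1_B) = (1_R - 1_R∘r) + (1_S - 1_S∘s)` for
`R = (0, 1/2)` and `S = (b, b + 1/2)`, the function `δ = 2(v - v∘r) - (1_R - 1_R∘r)` takes odd
values and satisfies `δ∘r = -δ = δ∘s` off a countable set.  So the set where `δ > 0` is invariant
under the rotation `s r`, which is ergodic, and is mapped by `r` to its complement, which is
impossible.
-/

open Set MeasureTheory

namespace Pool.Agent.Results.MP_3fd8c4_al.CircleReflections

/-- A `G`-invariant subalgebra of the power set of `X`: a family of subsets of `X` which contains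
the empty set and `X`, is closed under finite unions, finite intersections and complements, and is
mapped to itself by every element of `G`. -/
structure InvAlgebra (G X : Type) [Group G] [MulAction G X] where
  /-- the members of the family -/
  sets : Set (Set X)
  empty_mem : ∅ ∈ sets
  univ_mem : univ ∈ sets
  union_mem : ∀ A ∈ sets, ∀ B ∈ sets, A ∪ B ∈ sets
  inter_mem : ∀ A ∈ sets, ∀ B ∈ sets, A ∩ B ∈ sets
  compl_mem : ∀ A ∈ sets, Aᶜ ∈ sets
  image_mem : ∀ g : G, ∀ A ∈ sets, (fun x => g • x) '' A ∈ sets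

section General

variable {G X : Type} [Group G] [MulAction G X]

/-- The action of `(g, π) ∈ G × Perm ℕ` on `X × ℕ`. -/
def act (h : G × Equiv.Perm ℕ) (p : X × ℕ) : X × ℕ := (h.1 • p.1, h.2 p.2)

/-- The family `𝒜*` of all sets `⋃_{m < n} A_m × {m}` with all `A_m` in `𝒜`. -/
def InvAlgebra.star (𝒜 : InvAlgebra G X) : Set (Set (X × ℕ)) :=
  {S | ∃ (n : ℕ) (A : ℕ → Set X), (∀ m < n, A m ∈ 𝒜.sets) ∧ S = ⋃ m < n, A m ×ˢ {m}}

/-- Equidecomposability in `𝒜`: `A` is partitioned into finitely many pieces `P i ∈ 𝒜*`, and there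
are `h i ∈ G × Perm ℕ` such that the images `h i (P i)` partition `B`. -/
def Equidec (𝒜 : InvAlgebra G X) (A B : Set (X × ℕ)) : Prop :=
  ∃ (ι : Type) (_ : Finite ι) (P : ι → Set (X × ℕ)) (h : ι → G × Equiv.Perm ℕ),
    (∀ i, P i ∈ 𝒜.star) ∧
    (∀ i j, i ≠ j → Disjoint (P i) (P j)) ∧ (⋃ i, P i) = A ∧
    (∀ i j, i ≠ j → Disjoint (act (h i) '' P i) (act (h j) '' P j)) ∧
    (⋃ i, act (h i) '' P i) = B

theorem act_injective (h : G × Equiv.Perm ℕ) : Function.Injective (act (X := X) h) := by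
  rintro ⟨x, m⟩ ⟨y, n⟩ hxy
  simp only [act, Prod.mk.injEq] at hxy
  ext
  · exact MulAction.injective h.1 hxy.1
  · exact h.2.injective hxy.2

theorem act_one (p : X × ℕ) : act (1 : G × Equiv.Perm ℕ) p = p := by
  simp [act]

theorem act_mul (h k : G × Equiv.Perm ℕ) (p : X × ℕ) : act (h * k) p = act h (act k p) := by
  simp [act, mul_smul]

theorem mem_act_image {h : G × Equiv.Perm ℕ} {S : Set (X × ℕ)} {p : X × ℕ} :
    p ∈ act h '' S ↔ act h⁻¹ p ∈ S := by
  constructor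
  · rintro ⟨q, hq, rfl⟩
    rwa [← act_mul, inv_mul_cancel, act_one]
  · intro hp
    exact ⟨_, hp, by rw [← act_mul, mul_inv_cancel, act_one]⟩

variable (𝒜 : InvAlgebra G X)

theorem mem_star_iff {S : Set (X × ℕ)} :
    S ∈ 𝒜.star ↔ (∀ m, {x | (x, m) ∈ S} ∈ 𝒜.sets) ∧ ∃ n, ∀ p ∈ S, p.2 < n := by
  constructor
  · rintro ⟨n, A, hA, rfl⟩
    refine ⟨fun m => ?_, n, fun p hp => ?_⟩
    · by_cases hm : m < n
      · convert hA m hm using 1
        ext x
        simp only [mem_iUnion, mem_prod, mem_singleton_iff, mem_ofPred_eq]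
        constructor
        · rintro ⟨i, hi, hx, rfl⟩
          exact hx
        · intro hx
          exact ⟨m, hm, hx, rfl⟩
      · convert 𝒜.empty_mem using 1
        ext x
        simp only [mem_iUnion, mem_prod, mem_singleton_iff, mem_ofPred_eq, mem_empty_iff_false,
          iff_false]
        rintro ⟨i, hi, hx, rfl⟩
        exact hm hi
    · simp only [mem_iUnion, mem_prod, mem_singleton_iff] at hp
      obtain ⟨i, hi, _, h2⟩ := hp
      omega
  · rintro ⟨h1, n, hn⟩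
    refine ⟨n, fun m => {x | (x, m) ∈ S}, fun m _ => h1 m, ?_⟩
    ext ⟨x, m⟩
    simp only [mem_iUnion, mem_prod, mem_singleton_iff, mem_ofPred_eq]
    constructor
    · intro h
      exact ⟨m, hn _ h, h, rfl⟩
    · rintro ⟨i, _, hx, rfl⟩
      exact hx

theorem empty_mem_star : (∅ : Set (X × ℕ)) ∈ 𝒜.star := by
  rw [mem_star_iff]
  exact ⟨fun m => by simpa using 𝒜.empty_mem, 0, fun p hp => absurd hp (by simp)⟩

theorem inter_mem_star {S T : Set (X × ℕ)} (hS : S ∈ 𝒜.star) (hT : T ∈ 𝒜.star) :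
    S ∩ T ∈ 𝒜.star := by
  rw [mem_star_iff] at *
  obtain ⟨h1, n, hn⟩ := hS
  obtain ⟨h2, -⟩ := hT
  exact ⟨fun m => 𝒜.inter_mem _ (h1 m) _ (h2 m), n, fun p hp => hn p hp.1⟩

theorem union_mem_star {S T : Set (X × ℕ)} (hS : S ∈ 𝒜.star) (hT : T ∈ 𝒜.star) :
    S ∪ T ∈ 𝒜.star := by
  rw [mem_star_iff] at *
  obtain ⟨h1, n, hn⟩ := hS
  obtain ⟨h2, k, hk⟩ := hT
  refine ⟨fun m => 𝒜.union_mem _ (h1 m) _ (h2 m), max n k, fun p hp => ?_⟩
  rcases hp with hp | hp
  · exact lt_of_lt_of_le (hn p hp) (le_max_left _ _)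
  · exact lt_of_lt_of_le (hk p hp) (le_max_right _ _)

theorem image_mem_star {S : Set (X × ℕ)} (h : G × Equiv.Perm ℕ) (hS : S ∈ 𝒜.star) :
    act h '' S ∈ 𝒜.star := by
  rw [mem_star_iff] at *
  obtain ⟨h1, n, hn⟩ := hS
  refine ⟨fun m => ?_, ?_⟩
  · convert 𝒜.image_mem h.1 _ (h1 (h.2⁻¹ m)) using 1
    ext x
    simp only [mem_ofPred_eq, mem_act_image]
    simp only [act, Prod.fst_inv, Prod.snd_inv, mem_image, mem_ofPred_eq]
    constructor
    · intro hx
      exact ⟨_, hx, by simp⟩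
    · rintro ⟨y, hy, rfl⟩
      simpa using hy
  · refine ⟨(Finset.range n).sup (fun m => h.2 m) + 1, ?_⟩
    rintro _ ⟨p, hp, rfl⟩
    have := Finset.le_sup (f := fun m => h.2 m) (Finset.mem_range.2 (hn p hp))
    simp only [act]
    omega

theorem Equidec.refl {A : Set (X × ℕ)} (hA : A ∈ 𝒜.star) : Equidec 𝒜 A A := by
  refine ⟨Unit, inferInstance, fun _ => A, fun _ => 1, fun _ => hA, ?_, iUnion_const A, ?_, ?_⟩
  · intro i j hij
    exact absurd (Subsingleton.elim i j) hij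
  · intro i j hij
    exact absurd (Subsingleton.elim i j) hij
  · ext p
    simp [act_one]

theorem Equidec.symm {A B : Set (X × ℕ)} (h : Equidec 𝒜 A B) : Equidec 𝒜 B A := by
  obtain ⟨ι, hι, P, h, h1, h2, h3, h4, h5⟩ := h
  have key : ∀ i, act (h i)⁻¹ '' (act (h i) '' P i) = P i := by
    intro i
    ext p
    rw [mem_act_image, mem_act_image, inv_inv, ← act_mul, inv_mul_cancel, act_one]
  refine ⟨ι, hι, fun i => act (h i) '' P i, fun i => (h i)⁻¹, fun i => image_mem_star 𝒜 _ (h1 i),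
    h4, h5, ?_, ?_⟩
  · intro i j hij
    simp only [key]
    exact h2 i j hij
  · simp only [key]
    exact h3

theorem Equidec.trans {A B C : Set (X × ℕ)} (h : Equidec 𝒜 A B) (h' : Equidec 𝒜 B C) :
    Equidec 𝒜 A C := by
  obtain ⟨ι, hι, P, h, h1, h2, h3, h4, h5⟩ := h
  obtain ⟨κ, hκ, Q, k, k1, k2, k3, k4, k5⟩ := h'
  have key : ∀ i : ι × κ, act (k i.2 * h i.1) '' (P i.1 ∩ act (h i.1)⁻¹ '' Q i.2) =
      act (k i.2) '' (act (h i.1) '' P i.1 ∩ Q i.2) := by
    intro i
    ext p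
    have e1 : act (k i.2 * h i.1)⁻¹ p = act (h i.1)⁻¹ (act (k i.2)⁻¹ p) := by
      rw [mul_inv_rev, act_mul]
    have e2 : act (h i.1) (act (h i.1)⁻¹ (act (k i.2)⁻¹ p)) = act (k i.2)⁻¹ p := by
      rw [← act_mul, mul_inv_cancel, act_one]
    rw [mem_act_image, mem_act_image, e1, mem_inter_iff, mem_inter_iff, mem_act_image,
      mem_act_image, inv_inv, e2]
  refine ⟨ι × κ, inferInstance, fun i => P i.1 ∩ act (h i.1)⁻¹ '' Q i.2, fun i => k i.2 * h i.1,
    fun i => inter_mem_star 𝒜 (h1 _) (image_mem_star 𝒜 _ (k1 _)), ?_, ?_, ?_, ?_⟩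
  · rintro ⟨i, j⟩ ⟨i', j'⟩ hij
    rw [Set.disjoint_left]
    rintro p ⟨hp1, hp2⟩ ⟨hp3, hp4⟩
    by_cases hii : i = i'
    · subst hii
      have hjj : j ≠ j' := fun h => hij (by rw [h])
      simp only [mem_act_image] at hp2 hp4
      exact Set.disjoint_left.1 (k2 j j' hjj) hp2 hp4
    · exact Set.disjoint_left.1 (h2 i i' hii) hp1 hp3
  · rw [← h3]
    ext p
    simp only [mem_iUnion, Prod.exists]
    constructor
    · rintro ⟨i, j, hp, _⟩
      exact ⟨i, hp⟩
    · rintro ⟨i, hp⟩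
      have hB : act (h i) p ∈ B := by
        rw [← h5]
        exact mem_iUnion.2 ⟨i, p, hp, rfl⟩
      rw [← k3] at hB
      obtain ⟨j, hj⟩ := mem_iUnion.1 hB
      exact ⟨i, j, hp, by rw [mem_act_image, inv_inv]; exact hj⟩
  · rintro ⟨i, j⟩ ⟨i', j'⟩ hij
    rw [key, key]
    by_cases hjj : j = j'
    · subst hjj
      have hii : i ≠ i' := fun h => hij (by rw [h])
      rw [Set.disjoint_left]
      intro p hp1 hp2
      simp only [mem_act_image, mem_inter_iff] at hp1 hp2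
      have := Set.disjoint_left.1 (h4 i i' hii) (mem_act_image.2 hp1.1) 
      exact this (mem_act_image.2 hp2.1)
    · rw [Set.disjoint_left]
      intro p hp1 hp2
      refine Set.disjoint_left.1 (k4 j j' hjj) (image_mono inter_subset_right hp1)
        (image_mono inter_subset_right hp2)
  · rw [← k5]
    ext p
    simp only [mem_iUnion, key, Prod.exists]
    constructor
    · rintro ⟨i, j, hp⟩
      exact ⟨j, image_mono inter_subset_right hp⟩
    · rintro ⟨j, hp⟩
      obtain ⟨q, hq, rfl⟩ := hp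
      have hB : q ∈ B := by
        rw [← k3]
        exact mem_iUnion.2 ⟨j, hq⟩
      rw [← h5] at hB
      obtain ⟨i, hi⟩ := mem_iUnion.1 hB
      exact ⟨i, j, q, ⟨hi, hq⟩, rfl⟩

theorem Equidec.union {A A' B B' : Set (X × ℕ)} (h : Equidec 𝒜 A A') (h' : Equidec 𝒜 B B')
    (hd : Disjoint A B) (hd' : Disjoint A' B') : Equidec 𝒜 (A ∪ B) (A' ∪ B') := by
  obtain ⟨ι, hι, P, h, h1, h2, h3, h4, h5⟩ := h
  obtain ⟨κ, hκ, Q, k, k1, k2, k3, k4, k5⟩ := h'
  have e1 : ∀ i, P i ⊆ A := fun i => h3 ▸ subset_iUnion _ i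
  have e2 : ∀ i, Q i ⊆ B := fun i => k3 ▸ subset_iUnion _ i
  have e3 : ∀ i, act (h i) '' P i ⊆ A' := fun i => h5 ▸ subset_iUnion (fun i => act (h i) '' P i) i
  have e4 : ∀ i, act (k i) '' Q i ⊆ B' := fun i => k5 ▸ subset_iUnion (fun i => act (k i) '' Q i) i
  refine ⟨ι ⊕ κ, inferInstance, Sum.elim P Q, Sum.elim h k, ?_, ?_, ?_, ?_, ?_⟩
  · rintro (i | i)
    · exact h1 i
    · exact k1 i
  · rintro (i | i) (j | j) hij
    · exact h2 i j (fun h => hij (by rw [h]))
    · exact hd.mono (e1 i) (e2 j)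
    · exact (hd.mono (e1 j) (e2 i)).symm
    · exact k2 i j (fun h => hij (by rw [h]))
  · rw [iUnion_sum]
    simp [h3, k3]
  · rintro (i | i) (j | j) hij
    · exact h4 i j (fun h => hij (by rw [h]))
    · exact hd'.mono (e3 i) (e4 j)
    · exact (hd'.mono (e3 j) (e4 i)).symm
    · exact k4 i j (fun h => hij (by rw [h]))
  · rw [iUnion_sum]
    simp only [Sum.elim_inl, Sum.elim_inr]
    rw [h5, k5]

/-- Equidecomposability in `𝒜` as an equivalence relation on `𝒜*`. -/
def typeSetoid : Setoid {A : Set (X × ℕ) // A ∈ 𝒜.star} where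
  r A B := Equidec 𝒜 A.1 B.1
  iseqv := ⟨fun A => Equidec.refl 𝒜 A.2, fun h => Equidec.symm 𝒜 h,
    fun h h' => Equidec.trans 𝒜 h h'⟩

/-- The set `𝒮(𝒜)` of types. -/
def Types : Type := Quotient (typeSetoid 𝒜)

/-- The type of `A ∈ 𝒜*`. -/
def typeOf (A : Set (X × ℕ)) (hA : A ∈ 𝒜.star) : Types 𝒜 :=
  Quotient.mk (typeSetoid 𝒜) ⟨A, hA⟩

/-- The set `A` moved `k` levels upward. -/
def shift (k : ℕ) (A : Set (X × ℕ)) : Set (X × ℕ) := (fun p => (p.1, p.2 + k)) '' A

/-- The least `n` such that all levels of `A` are smaller than `n`. -/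
noncomputable def height (A : Set (X × ℕ)) : ℕ := sInf {n | ∀ p ∈ A, p.2 < n}

theorem lt_height {A : Set (X × ℕ)} (hA : A ∈ 𝒜.star) : ∀ p ∈ A, p.2 < height A :=
  Nat.sInf_mem (s := {n | ∀ p ∈ A, p.2 < n}) ((mem_star_iff 𝒜).1 hA).2

theorem equidec_image {A : Set (X × ℕ)} (h : G × Equiv.Perm ℕ) (hA : A ∈ 𝒜.star) :
    Equidec 𝒜 A (act h '' A) := by
  refine ⟨Unit, inferInstance, fun _ => A, fun _ => h, fun _ => hA, ?_, iUnion_const A, ?_,
    iUnion_const _⟩
  · intro i j hij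
    exact absurd (Subsingleton.elim i j) hij
  · intro i j hij
    exact absurd (Subsingleton.elim i j) hij

/-- The permutation `0 → 1 → ... → n → 0` of `ℕ`. -/
def cyc (n : ℕ) : Equiv.Perm ℕ where
  toFun m := if m < n then m + 1 else if m = n then 0 else m
  invFun m := if m = 0 then n else if m ≤ n then m - 1 else m
  left_inv m := by
    by_cases h1 : m < n
    · simp only [h1, if_true]
      rw [if_neg (by omega), if_pos (by omega)]
      omega
    · by_cases h2 : m = n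
      · simp [h2]
      · simp only [h1, h2, if_false]
        rw [if_neg (by omega), if_neg (by omega)]
  right_inv m := by
    by_cases h1 : m = 0
    · simp [h1]
    · by_cases h2 : m ≤ n
      · simp only [h1, h2, if_true, if_false]
        rw [if_pos (by omega)]
        omega
      · simp only [h1, h2, if_false]
        rw [if_neg (by omega), if_neg (by omega)]

theorem shift_succ (k : ℕ) (A : Set (X × ℕ)) : shift (k + 1) A = shift 1 (shift k A) := by
  simp only [shift, image_image]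
  rfl

theorem shift_one {A : Set (X × ℕ)} {n : ℕ} (hn : ∀ p ∈ A, p.2 < n) :
    shift 1 A = act ((1 : G), cyc n) '' A := by
  refine image_congr fun p hp => ?_
  have h := hn p hp
  simp only [act, cyc, Equiv.coe_fn_mk, one_smul, h, if_true]

theorem shift_mem_equidec {A : Set (X × ℕ)} (hA : A ∈ 𝒜.star) (k : ℕ) :
    shift k A ∈ 𝒜.star ∧ Equidec 𝒜 A (shift k A) := by
  induction k with
  | zero =>
    have : shift 0 A = A := by simp [shift]
    rw [this]
    exact ⟨hA, Equidec.refl 𝒜 hA⟩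
  | succ k ih =>
    rw [shift_succ]
    obtain ⟨h1, h2⟩ := ih
    have h3 := shift_one (G := G) (lt_height 𝒜 h1)
    rw [h3]
    exact ⟨image_mem_star 𝒜 _ h1, h2.trans 𝒜 (equidec_image 𝒜 _ h1)⟩

theorem shift_mem_star {A : Set (X × ℕ)} (hA : A ∈ 𝒜.star) (k : ℕ) : shift k A ∈ 𝒜.star :=
  (shift_mem_equidec 𝒜 hA k).1

theorem equidec_shift {A : Set (X × ℕ)} (hA : A ∈ 𝒜.star) (k : ℕ) : Equidec 𝒜 A (shift k A) :=
  (shift_mem_equidec 𝒜 hA k).2

theorem disjoint_shift {A B : Set (X × ℕ)} (hA : A ∈ 𝒜.star) {k : ℕ} (hk : height A ≤ k) :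
    Disjoint A (shift k B) := by
  rw [Set.disjoint_left]
  rintro p hp ⟨q, hq, rfl⟩
  have := lt_height 𝒜 hA _ hp
  simp only at this
  omega

/-- The sum of two types: `[A] + [B] = [A ∪ B']`, where `B'` is `B` moved upward by the height
of `A`. -/
noncomputable def addTypes (α β : Types 𝒜) : Types 𝒜 :=
  Quotient.map₂ (sa := typeSetoid 𝒜) (sb := typeSetoid 𝒜) (sc := typeSetoid 𝒜)
    (fun A B => ⟨A.1 ∪ shift (height A.1) B.1,
      union_mem_star 𝒜 A.2 (shift_mem_star 𝒜 B.2 _)⟩)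
    (fun A A' hA B B' hB =>
      Equidec.union 𝒜 hA (((equidec_shift 𝒜 B.2 _).symm 𝒜).trans 𝒜
        (Equidec.trans 𝒜 hB (equidec_shift 𝒜 B'.2 _)))
        (disjoint_shift 𝒜 A.2 le_rfl) (disjoint_shift 𝒜 A'.2 le_rfl)) α β

noncomputable instance : Add (Types 𝒜) := ⟨addTypes 𝒜⟩

instance : Zero (Types 𝒜) := ⟨typeOf 𝒜 ∅ (empty_mem_star 𝒜)⟩

theorem typeOf_eq_iff {A B : Set (X × ℕ)} (hA : A ∈ 𝒜.star) (hB : B ∈ 𝒜.star) :
    typeOf 𝒜 A hA = typeOf 𝒜 B hB ↔ Equidec 𝒜 A B :=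
  Quotient.eq (r := typeSetoid 𝒜)

theorem typeOf_add {A B : Set (X × ℕ)} (hA : A ∈ 𝒜.star) (hB : B ∈ 𝒜.star) :
    typeOf 𝒜 A hA + typeOf 𝒜 B hB = typeOf 𝒜 (A ∪ shift (height A) B)
      (union_mem_star 𝒜 hA (shift_mem_star 𝒜 hB _)) := rfl

theorem typeOf_union {A B : Set (X × ℕ)} (hA : A ∈ 𝒜.star) (hB : B ∈ 𝒜.star)
    (hd : Disjoint A B) :
    typeOf 𝒜 (A ∪ B) (union_mem_star 𝒜 hA hB) = typeOf 𝒜 A hA + typeOf 𝒜 B hB := by
  rw [typeOf_add, typeOf_eq_iff]
  exact Equidec.union 𝒜 (Equidec.refl 𝒜 hA) (equidec_shift 𝒜 hB _) hd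
    (disjoint_shift 𝒜 hA le_rfl)

theorem types_ind {P : Types 𝒜 → Prop} (h : ∀ A (hA : A ∈ 𝒜.star), P (typeOf 𝒜 A hA))
    (α : Types 𝒜) : P α := by
  induction α using Quotient.inductionOn with
  | h A => exact h A.1 A.2

theorem typeOf_congr {A B : Set (X × ℕ)} (hA : A ∈ 𝒜.star) (h : A = B) :
    typeOf 𝒜 A hA = typeOf 𝒜 B (h ▸ hA) := by
  subst h
  rfl

theorem typeOf_shift {A : Set (X × ℕ)} (hA : A ∈ 𝒜.star) (k : ℕ) :
    typeOf 𝒜 (shift k A) (shift_mem_star 𝒜 hA k) = typeOf 𝒜 A hA := by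
  rw [typeOf_eq_iff]
  exact (equidec_shift 𝒜 hA k).symm 𝒜

theorem types_add_assoc (α β γ : Types 𝒜) : α + β + γ = α + (β + γ) := by
  induction α using types_ind with | _ A hA
  induction β using types_ind with | _ B hB
  induction γ using types_ind with | _ C hC
  have hB1 := shift_mem_star 𝒜 hB (height A)
  have hd1 : Disjoint A (shift (height A) B) := disjoint_shift 𝒜 hA le_rfl
  rw [← typeOf_shift 𝒜 hB (height A), ← typeOf_union 𝒜 hA hB1 hd1]
  have hAB := union_mem_star 𝒜 hA hB1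
  set k := height (A ∪ shift (height A) B) with hk
  have hC1 := shift_mem_star 𝒜 hC k
  have hd2 : Disjoint (A ∪ shift (height A) B) (shift k C) := disjoint_shift 𝒜 hAB le_rfl
  rw [← typeOf_shift 𝒜 hC k, ← typeOf_union 𝒜 hAB hC1 hd2,
    ← typeOf_union 𝒜 hB1 hC1 (disjoint_union_left.1 hd2).2,
    ← typeOf_union 𝒜 hA (union_mem_star 𝒜 hB1 hC1)
      (disjoint_union_right.2 ⟨hd1, (disjoint_union_left.1 hd2).1⟩)]
  exact typeOf_congr 𝒜 _ (union_assoc _ _ _)

theorem types_add_comm (α β : Types 𝒜) : α + β = β + α := by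
  induction α using types_ind with | _ A hA
  induction β using types_ind with | _ B hB
  rw [typeOf_add, typeOf_add, typeOf_eq_iff, union_comm B]
  exact Equidec.union 𝒜 (equidec_shift 𝒜 hA _) ((equidec_shift 𝒜 hB _).symm 𝒜)
    (disjoint_shift 𝒜 hA le_rfl) (disjoint_shift 𝒜 hB le_rfl).symm

theorem types_zero_add (α : Types 𝒜) : 0 + α = α := by
  induction α using types_ind with | _ A hA
  change typeOf 𝒜 ∅ (empty_mem_star 𝒜) + typeOf 𝒜 A hA = typeOf 𝒜 A hA
  rw [typeOf_add, typeOf_eq_iff, empty_union]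
  exact (equidec_shift 𝒜 hA _).symm 𝒜

/-- `𝒮(𝒜)` is a commutative monoid; the zero is the type of the empty set. -/
noncomputable instance : AddCommMonoid (Types 𝒜) where
  add_assoc := types_add_assoc 𝒜
  zero_add := types_zero_add 𝒜
  add_zero α := by rw [types_add_comm, types_zero_add]
  add_comm := types_add_comm 𝒜
  nsmul := nsmulRec

/-- The cancellation law in `𝒮(𝒜)`. -/
def CancellationLaw : Prop :=
  ∀ n : ℕ, 1 ≤ n → ∀ α β : Types 𝒜, n • α = n • β → α = β

end General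

section Level0

variable {G X : Type} [Group G] [MulAction G X] (𝒜 : InvAlgebra G X)

theorem lvl_mem {S : Set X} (hS : S ∈ 𝒜.sets) : S ×ˢ ({0} : Set ℕ) ∈ 𝒜.star := by
  rw [mem_star_iff]
  refine ⟨fun m => ?_, 1, ?_⟩
  · by_cases hm : m = 0
    · subst hm
      simpa using hS
    · simpa [hm] using 𝒜.empty_mem
  · rintro ⟨x, m⟩ ⟨-, hm⟩
    simp only [mem_singleton_iff] at hm
    simp [hm]

/-- The type of `S × {0}`. -/
def tau (S : Set X) (hS : S ∈ 𝒜.sets) : Types 𝒜 := typeOf 𝒜 (S ×ˢ {0}) (lvl_mem 𝒜 hS)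

theorem tau_congr {S T : Set X} (hS : S ∈ 𝒜.sets) (hT : T ∈ 𝒜.sets) (h : S = T) :
    tau 𝒜 S hS = tau 𝒜 T hT := by
  subst h
  rfl

theorem tau_union {S T U : Set X} (hS : S ∈ 𝒜.sets) (hT : T ∈ 𝒜.sets) (hU : U ∈ 𝒜.sets)
    (h : U = S ∪ T) (hd : Disjoint S T) : tau 𝒜 U hU = tau 𝒜 S hS + tau 𝒜 T hT := by
  subst h
  have hd' : Disjoint (S ×ˢ ({0} : Set ℕ)) (T ×ˢ ({0} : Set ℕ)) := by
    rw [Set.disjoint_left] at *
    rintro ⟨x, m⟩ ⟨h1, -⟩ ⟨h2, -⟩
    exact hd h1 h2
  rw [tau, tau, tau, ← typeOf_union 𝒜 _ _ hd']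
  exact typeOf_congr 𝒜 _ (by rw [union_prod])

theorem tau_image {S T : Set X} (hS : S ∈ 𝒜.sets) (hT : T ∈ 𝒜.sets) (g : G)
    (h : (fun x => g • x) '' S = T) : tau 𝒜 T hT = tau 𝒜 S hS := by
  subst h
  rw [tau, tau, typeOf_eq_iff]
  refine Equidec.symm 𝒜 ?_
  convert equidec_image 𝒜 ((g, 1) : G × Equiv.Perm ℕ) (lvl_mem 𝒜 hS) using 1
  ext ⟨x, m⟩
  simp only [mem_prod, mem_image, mem_singleton_iff, act, Prod.mk.injEq, Prod.exists,
    Equiv.Perm.one_apply]
  constructor
  · rintro ⟨⟨y, hy, rfl⟩, rfl⟩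
    exact ⟨y, 0, ⟨hy, rfl⟩, rfl, rfl⟩
  · rintro ⟨y, k, ⟨hy, rfl⟩, rfl, rfl⟩
    exact ⟨⟨y, hy, rfl⟩, rfl⟩

theorem indicator_iUnion_sum {Y ι : Type} [Fintype ι] (Q : ι → Set Y)
    (hd : ∀ i j, i ≠ j → Disjoint (Q i) (Q j)) (x : Y) :
    (⋃ i, Q i).indicator (1 : Y → ℤ) x = ∑ i, (Q i).indicator (1 : Y → ℤ) x := by
  by_cases hx : x ∈ ⋃ i, Q i
  · obtain ⟨i, hi⟩ := mem_iUnion.1 hx
    rw [indicator_of_mem hx, Finset.sum_eq_single i]
    · rw [indicator_of_mem hi]
    · intro j _ hj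
      exact indicator_of_notMem (fun h => Set.disjoint_left.1 (hd j i hj) h hi) _
    · intro h
      exact absurd (Finset.mem_univ i) h
  · rw [indicator_of_notMem hx]
    symm
    apply Finset.sum_eq_zero
    intro i _
    exact indicator_of_notMem (fun h => hx (mem_iUnion.2 ⟨i, h⟩)) _

theorem indicator_of_equidec {A B : Set X} (h : Equidec 𝒜 (A ×ˢ {0}) (B ×ˢ {0})) :
    ∃ (ι : Type) (_ : Fintype ι) (P : ι → Set X) (g : ι → G), (∀ i, P i ∈ 𝒜.sets) ∧
      ∀ x, A.indicator (1 : X → ℤ) x - B.indicator (1 : X → ℤ) x =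
        ∑ i, ((P i).indicator (1 : X → ℤ) x - (P i).indicator (1 : X → ℤ) ((g i)⁻¹ • x)) := by
  obtain ⟨ι, hι, P, h, h1, h2, h3, h4, h5⟩ := h
  let _ : Fintype ι := Fintype.ofFinite ι
  have e1 : ∀ i, P i ⊆ A ×ˢ {0} := fun i => h3 ▸ subset_iUnion _ i
  have e2 : ∀ i, act (h i) '' P i ⊆ B ×ˢ {0} :=
    fun i => h5 ▸ subset_iUnion (fun i => act (h i) '' P i) i
  refine ⟨ι, inferInstance, fun i => {x | (x, 0) ∈ P i}, fun i => (h i).1,
    fun i => ((mem_star_iff 𝒜).1 (h1 i)).1 0, fun x => ?_⟩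
  have hA : A.indicator (1 : X → ℤ) x = (⋃ i, P i).indicator (1 : X × ℕ → ℤ) (x, 0) := by
    rw [h3]
    by_cases hx : x ∈ A
    · rw [indicator_of_mem hx, indicator_of_mem (by simpa using hx)]
      rfl
    · rw [indicator_of_notMem hx, indicator_of_notMem (by simpa using hx)]
  have hB : B.indicator (1 : X → ℤ) x =
      (⋃ i, act (h i) '' P i).indicator (1 : X × ℕ → ℤ) (x, 0) := by
    rw [h5]
    by_cases hx : x ∈ B
    · rw [indicator_of_mem hx, indicator_of_mem (by simpa using hx)]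
      rfl
    · rw [indicator_of_notMem hx, indicator_of_notMem (by simpa using hx)]
  rw [hA, hB, indicator_iUnion_sum _ h2, indicator_iUnion_sum _ h4, ← Finset.sum_sub_distrib]
  refine Finset.sum_congr rfl fun i _ => ?_
  congr 1
  · by_cases hx : (x, 0) ∈ act (h i) '' P i
    · rw [indicator_of_mem hx, indicator_of_mem]
      · rfl
      · obtain ⟨⟨y, m⟩, hy, hyx⟩ := hx
        have hm := (e1 i hy).2
        simp only [mem_singleton_iff] at hm
        subst hm
        simp only [act, Prod.mk.injEq] at hyx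
        rw [mem_ofPred_eq, ← hyx.1, inv_smul_smul]
        exact hy
    · rw [indicator_of_notMem hx, indicator_of_notMem]
      intro hx'
      rw [mem_ofPred_eq] at hx'
      apply hx
      refine ⟨_, hx', ?_⟩
      have h6 := (e2 i (mem_image_of_mem _ hx')).2
      simp only [act, mem_singleton_iff] at h6
      simp only [act, smul_inv_smul, h6]

end Level0

section Circle

/-- The circle `ℝ/ℤ`. -/
abbrev C : Type := UnitAddCircle

/-- The group of permutations of the circle generated by the reflections `x ↦ -x` and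
`x ↦ a - x`. -/
def D (a : C) : Subgroup (Equiv.Perm C) := Subgroup.closure {Equiv.neg C, Equiv.subLeft a}

/-- The open arc from `u` to `v`. -/
def arc (u v : ℝ) : Set C := (fun t : ℝ => (t : C)) '' Ioo u v

theorem measurableSet_arc (u v : ℝ) : MeasurableSet (arc u v) :=
  (QuotientAddGroup.isOpenMap_coe (N := AddSubgroup.zmultiples (1:ℝ)) _ isOpen_Ioo).measurableSet

theorem coe_mem_arc {u v t : ℝ} (hu : 0 ≤ u) (hv : v ≤ 1) (ht : t ∈ Ico (0:ℝ) 1) :
    (t : C) ∈ arc u v ↔ u < t ∧ t < v := by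
  constructor
  · rintro ⟨t', ⟨h1, h2⟩, h3⟩
    have : t' = t := by
      refine (AddCircle.coe_eq_coe_iff_of_mem_Ico (p := (1:ℝ)) (a := 0) ?_ ?_).1 h3
      · constructor <;> linarith
      · constructor <;> linarith [ht.1, ht.2]
    subst this
    exact ⟨h1, h2⟩
  · rintro ⟨h1, h2⟩
    exact ⟨t, ⟨h1, h2⟩, rfl⟩

theorem arc_add_one (u v : ℝ) : arc (u + 1) (v + 1) = arc u v := by
  ext x
  constructor
  · rintro ⟨t, ⟨h1, h2⟩, rfl⟩
    refine ⟨t - 1, ⟨by linarith, by linarith⟩, ?_⟩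
    simp
  · rintro ⟨t, ⟨h1, h2⟩, rfl⟩
    refine ⟨t + 1, ⟨by linarith, by linarith⟩, ?_⟩
    simp

theorem arc_add (u v c : ℝ) : (fun x : C => (c : C) + x) '' arc u v = arc (u + c) (v + c) := by
  ext x
  constructor
  · rintro ⟨_, ⟨t, ⟨h1, h2⟩, rfl⟩, rfl⟩
    refine ⟨c + t, ⟨by linarith, by linarith⟩, ?_⟩
    simp
  · rintro ⟨t, ⟨h1, h2⟩, rfl⟩
    refine ⟨_, ⟨t - c, ⟨by linarith, by linarith⟩, rfl⟩, ?_⟩
    simp

theorem arc_sub (u v c : ℝ) : (fun x : C => (c : C) - x) '' arc u v = arc (c - v) (c - u) := by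
  ext x
  constructor
  · rintro ⟨_, ⟨t, ⟨h1, h2⟩, rfl⟩, rfl⟩
    refine ⟨c - t, ⟨by linarith, by linarith⟩, ?_⟩
    simp
  · rintro ⟨t, ⟨h1, h2⟩, rfl⟩
    refine ⟨_, ⟨c - t, ⟨by linarith, by linarith⟩, rfl⟩, ?_⟩
    simp

/-- The countable set of all `(m + nθ)/2`. -/
def exc (θ : ℝ) : Set C := range (fun p : ℤ × ℤ => (((p.1 + p.2 * θ) / 2 : ℝ) : C))

theorem countable_exc (θ : ℝ) : (exc θ).Countable := countable_range _

theorem mem_exc {θ t : ℝ} (m n : ℤ) (h : t = (m + n * θ) / 2) : (t : C) ∈ exc θ :=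
  ⟨(m, n), by rw [h]⟩

theorem neg_mem_exc {θ : ℝ} {x : C} (h : x ∈ exc θ) : -x ∈ exc θ := by
  obtain ⟨⟨m, n⟩, rfl⟩ := h
  refine ⟨(-m, -n), ?_⟩
  simp only [← AddCircle.coe_neg]
  congr 1
  push_cast
  ring

theorem sub_mem_exc {θ : ℝ} {x : C} (h : x ∈ exc θ) : (θ : C) - x ∈ exc θ := by
  obtain ⟨⟨m, n⟩, rfl⟩ := h
  refine ⟨(-m, 2 -n), ?_⟩
  simp only [← AddCircle.coe_sub]
  congr 1
  push_cast
  ring

theorem neg_mem_exc_iff {θ : ℝ} {x : C} : -x ∈ exc θ ↔ x ∈ exc θ :=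
  ⟨fun h => by simpa using neg_mem_exc h, neg_mem_exc⟩

theorem sub_mem_exc_iff {θ : ℝ} {x : C} : (θ : C) - x ∈ exc θ ↔ x ∈ exc θ :=
  ⟨fun h => by simpa using sub_mem_exc h, sub_mem_exc⟩

theorem add_mem_exc_iff {θ : ℝ} {x : C} : (θ : C) + x ∈ exc θ ↔ x ∈ exc θ := by
  have h : (θ : C) + x = (θ : C) - (-x) := by abel
  rw [h, sub_mem_exc_iff, neg_mem_exc_iff]

/-- Every point of the circle outside `exc θ` comes from a point of `[0, 1)`. -/
theorem exists_rep (x : C) : ∃ t ∈ Ico (0:ℝ) 1, (t : C) = x := by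
  obtain ⟨t, ht, h⟩ := (AddCircle.eq_coe_Ico (p := (1:ℝ)) x)
  exact ⟨t, ht, h⟩

/-- arcs minus the exceptional set. -/
def arc' (θ u v : ℝ) : Set C := arc u v \ exc θ

theorem measurableSet_arc' (θ u v : ℝ) : MeasurableSet (arc' θ u v) :=
  (measurableSet_arc u v).diff (countable_exc θ).measurableSet

theorem arc'_split {θ u v w : ℝ} (hu : 0 ≤ u) (huv : u ≤ v) (hvw : v ≤ w) (hw : w ≤ 1)
    (hv : (v : C) ∈ exc θ) :
    arc' θ u w = arc' θ u v ∪ arc' θ v w ∧ Disjoint (arc' θ u v) (arc' θ v w) := by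
  constructor
  · ext x
    obtain ⟨t, ht, rfl⟩ := exists_rep x
    simp only [arc', mem_union, mem_sdiff]
    rw [coe_mem_arc hu hw ht, coe_mem_arc hu (hvw.trans hw) ht, coe_mem_arc (hu.trans huv) hw ht]
    constructor
    · rintro ⟨⟨h1, h2⟩, h3⟩
      rcases lt_trichotomy t v with h | h | h
      · exact Or.inl ⟨⟨h1, h⟩, h3⟩
      · subst h
        exact absurd hv h3
      · exact Or.inr ⟨⟨h, h2⟩, h3⟩
    · rintro (⟨⟨h1, h2⟩, h3⟩ | ⟨⟨h1, h2⟩, h3⟩)
      · exact ⟨⟨h1, by linarith⟩, h3⟩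
      · exact ⟨⟨by linarith, h2⟩, h3⟩
  · rw [Set.disjoint_left]
    intro x
    obtain ⟨t, ht, rfl⟩ := exists_rep x
    rintro ⟨h1, -⟩ ⟨h2, -⟩
    rw [coe_mem_arc hu (hvw.trans hw) ht] at h1
    rw [coe_mem_arc (hu.trans huv) hw ht] at h2
    linarith [h1.2, h2.1]

theorem arc'_neg (θ u v : ℝ) : (fun x : C => -x) '' arc' θ u v = arc' θ (1 - v) (1 - u) := by
  have h := arc_sub u v 0
  have h2 : (fun x : C => ((0:ℝ) : C) - x) = fun x : C => -x := by
    ext x; simp
  rw [h2, ← arc_add_one (0 - v) (0 - u)] at h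
  ext x
  constructor
  · rintro ⟨y, ⟨hy, hy'⟩, rfl⟩
    refine ⟨?_, fun h' => hy' (neg_mem_exc_iff.1 h')⟩
    have := mem_image_of_mem (fun x : C => -x) hy
    rw [h] at this
    convert this using 2 <;> ring
  · rintro ⟨hx, hx'⟩
    have h3 : arc (1 - v) (1 - u) = arc (0 - v + 1) (0 - u + 1) := by
      congr 1 <;> ring
    rw [h3, ← h] at hx
    obtain ⟨y, hy, rfl⟩ := hx
    exact ⟨y, ⟨hy, fun h' => hx' (neg_mem_exc_iff.2 h')⟩, rfl⟩

theorem arc'_sub (θ u v : ℝ) : (fun x : C => (θ : C) - x) '' arc' θ u v =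
    arc' θ (1 + θ - v) (1 + θ - u) := by
  have h := arc_sub u v θ
  rw [← arc_add_one (θ - v) (θ - u)] at h
  ext x
  constructor
  · rintro ⟨y, ⟨hy, hy'⟩, rfl⟩
    refine ⟨?_, fun h' => hy' (sub_mem_exc_iff.1 h')⟩
    have := mem_image_of_mem (fun x : C => (θ : C) -x) hy
    rw [h] at this
    convert this using 2 <;> ring
  · rintro ⟨hx, hx'⟩
    have h3 : arc (1 + θ - v) (1 + θ - u) = arc (θ - v + 1) (θ - u + 1) := by
      congr 1 <;> ring
    rw [h3, ← h] at hx
    obtain ⟨y, hy, rfl⟩ := hx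
    exact ⟨y, ⟨hy, fun h' => hx' (sub_mem_exc_iff.2 h')⟩, rfl⟩

theorem ergodic_irr {θ : ℝ} (hθ : Irrational θ) :
    Ergodic (fun x : C => (θ : C) + x) volume := by
  rw [ergodic_add_left_iff_denseRange_zsmul]
  exact AddCircle.denseRange_zsmul_coe_iff.2 (by simpa using hθ)

theorem volume_countable {E : Set C} (hE : E.Countable) : (volume : Measure C) E = 0 := by
  have h0 : ∀ x : C, (volume : Measure C) {x} = 0 := by
    intro x
    have h := AddCircle.volume_closedBall (T := 1) (x := x) 0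
    simpa using h
  rw [← biUnion_of_singleton E, measure_biUnion_null_iff hE]
  exact fun x _ => h0 x

theorem no_orientation {θ : ℝ} (hθ : Irrational θ) {E O : Set C} (hE : E.Countable)
    (hEa : ∀ x : C, (θ : C) + x ∈ E ↔ x ∈ E) (hOE : ∀ x ∈ O, x ∉ E)
    (h1 : ∀ x : C, x ∉ E → (-x ∈ O ↔ x ∉ O)) (h2 : ∀ x : C, x ∉ E → ((θ : C) + x ∈ O ↔ x ∈ O)) :
    ¬ NullMeasurableSet O (volume : Measure C) := by
  intro hO
  have hpre : (fun x : C => (θ : C) + x) ⁻¹' O = O := by
    ext x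
    rw [mem_preimage]
    by_cases hx : x ∈ E
    · constructor
      · intro h
        exact absurd ((hEa x).2 hx) (hOE _ h)
      · intro h
        exact absurd hx (hOE _ h)
    · exact h2 x hx
  have herg := (ergodic_irr hθ).quasiErgodic.ae_empty_or_univ₀ hO (Filter.EventuallyEq.of_eq hpre)
  have hEz := volume_countable hE
  have hneg : (volume : Measure C) ((fun x : C => -x) ⁻¹' O) = volume O :=
    (Measure.measurePreserving_neg (volume : Measure C)).measure_preimage hO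
  have hneg2 : (volume : Measure C) ((fun x : C => -x) ⁻¹' O) = volume Oᶜ := by
    apply measure_congr
    have : ∀ᵐ x : C, x ∉ E := by
      rw [ae_iff]
      simpa using hEz
    filter_upwards [this] with x hx
    exact propext (h1 x hx)
  have huniv : (volume : Measure C) univ ≤ volume O + volume Oᶜ := by
    rw [← union_compl_self O]
    exact measure_union_le _ _
  have h1' : (volume : Measure C) univ = 1 := by simp
  rcases herg with h | h
  · have h0 : (volume : Measure C) O = 0 := by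
      rw [measure_congr h]; simp
    rw [← hneg2, hneg, h0, h1'] at huniv
    simp at huniv
  · have h0 : (volume : Measure C) Oᶜ = 0 := by
      rw [← ae_eq_univ]; exact h
    rw [h0, ← hneg, hneg2, h0, h1'] at huniv
    simp at huniv

/-- `f` is a sum of coboundaries of the two reflections. -/
def Cob (a : C) (f : C → ℤ) : Prop :=
  ∃ v w : C → ℤ, AEMeasurable v volume ∧ AEMeasurable w volume ∧
    ∀ x : C, f x = (v x - v (-x)) + (w x - w (a - x))

theorem Cob.zero (a : C) : Cob a (fun _ => 0) :=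
  ⟨0, 0, aemeasurable_const, aemeasurable_const, fun x => by simp⟩

theorem Cob.add {a : C} {f g : C → ℤ} (hf : Cob a f) (hg : Cob a g) :
    Cob a (fun x => f x + g x) := by
  obtain ⟨v, w, hv, hw, h⟩ := hf
  obtain ⟨v', w', hv', hw', h'⟩ := hg
  refine ⟨v + v', w + w', hv.add hv', hw.add hw', fun x => ?_⟩
  simp only [h, h', Pi.add_apply]
  ring

theorem Cob.neg {a : C} {f : C → ℤ} (hf : Cob a f) : Cob a (fun x => - f x) := by
  obtain ⟨v, w, hv, hw, h⟩ := hf
  refine ⟨-v, -w, hv.neg, hw.neg, fun x => ?_⟩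
  simp only [h, Pi.neg_apply]
  ring

theorem Cob.sum {a : C} {ι : Type} (s : Finset ι) (f : ι → C → ℤ) (hf : ∀ i, Cob a (f i)) :
    Cob a (fun x => ∑ i ∈ s, f i x) := by
  classical
  induction s using Finset.induction_on with
  | empty => simpa using Cob.zero a
  | insert i s hi ih =>
    simp only [Finset.sum_insert hi]
    exact (hf i).add ih

theorem mp_of_mem {a : C} {g : Equiv.Perm C} (hg : g ∈ D a) :
    MeasurePreserving g (volume : Measure C) volume ∧
      MeasurePreserving (g⁻¹ : Equiv.Perm C) (volume : Measure C) volume := by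
  induction hg using Subgroup.closure_induction with
  | mem g hg =>
    rcases hg with rfl | rfl
    · exact ⟨Measure.measurePreserving_neg _, Measure.measurePreserving_neg _⟩
    · refine ⟨Measure.measurePreserving_sub_left _ a, ?_⟩
      convert Measure.measurePreserving_sub_left (volume : Measure C) a using 1
      ext x
      change -x + a = a - x
      abel
  | one => exact ⟨MeasurePreserving.id _, MeasurePreserving.id _⟩
  | mul g h _ _ hg hh =>
    refine ⟨hg.1.comp hh.1, ?_⟩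
    rw [mul_inv_rev]
    exact hh.2.comp hg.2
  | inv g _ hg => exact ⟨hg.2, by simpa using hg.1⟩

theorem cob_of_mem {a : C} {g : Equiv.Perm C} (hg : g ∈ D a) :
    ∀ u : C → ℤ, AEMeasurable u volume → Cob a (fun x => u x - u (g x)) := by
  induction hg using Subgroup.closure_induction with
  | mem g hg =>
    intro u hu
    rcases hg with rfl | rfl
    · exact ⟨u, 0, hu, aemeasurable_const, fun x => by simp⟩
    · exact ⟨0, u, aemeasurable_const, hu, fun x => by simp⟩
  | one =>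
    intro u _
    simpa using Cob.zero a
  | mul g h hg' hh' hg hh =>
    intro u hu
    have h1 := hg u hu
    have h2 := hh (u ∘ g) (hu.comp_quasiMeasurePreserving (mp_of_mem hg').1.quasiMeasurePreserving)
    convert h1.add h2 using 2 with x
    simp
  | inv g hg' hg =>
    intro u hu
    have h2 := hg (u ∘ (g⁻¹ : Equiv.Perm C))
      (hu.comp_quasiMeasurePreserving (mp_of_mem hg').2.quasiMeasurePreserving)
    convert h2.neg using 2 with x
    simp

theorem ind_arc {u v t : ℝ} (hu : 0 ≤ u) (hv : v ≤ 1) (ht : t ∈ Ico (0:ℝ) 1) :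
    (arc u v).indicator (1 : C → ℤ) (t : C) = if u < t ∧ t < v then 1 else 0 := by
  by_cases h : u < t ∧ t < v
  · rw [if_pos h, indicator_of_mem ((coe_mem_arc hu hv ht).2 h)]
    rfl
  · rw [if_neg h, indicator_of_notMem (fun h' => h ((coe_mem_arc hu hv ht).1 h'))]

theorem ind_arc' {θ u v t : ℝ} (hu : 0 ≤ u) (hv : v ≤ 1) (ht : t ∈ Ico (0:ℝ) 1)
    (hE : (t : C) ∉ exc θ) :
    (arc' θ u v).indicator (1 : C → ℤ) (t : C) = if u < t ∧ t < v then 1 else 0 := by
  by_cases h : u < t ∧ t < v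
  · rw [if_pos h, indicator_of_mem (s := arc' θ u v) ⟨(coe_mem_arc hu hv ht).2 h, hE⟩]
    rfl
  · rw [if_neg h, indicator_of_notMem (fun h' => h ((coe_mem_arc hu hv ht).1 h'.1))]

theorem key_identity {θ : ℝ} (h0 : 0 < θ) (h1 : θ < 1 / 2) {x : C} (hx : x ∉ exc θ) :
    ((arc 0 (1 / 2)).indicator (1 : C → ℤ) x - (arc 0 (1 / 2)).indicator (1 : C → ℤ) (-x) = 1 ∨
      (arc 0 (1 / 2)).indicator (1 : C → ℤ) x -
        (arc 0 (1 / 2)).indicator (1 : C → ℤ) (-x) = -1) ∧
    ((arc 0 (1 / 2)).indicator (1 : C → ℤ) x - (arc 0 (1 / 2)).indicator (1 : C → ℤ) (-x)) +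
      ((arc (θ / 2) (θ / 2 + 1 / 2)).indicator (1 : C → ℤ) x -
        (arc (θ / 2) (θ / 2 + 1 / 2)).indicator (1 : C → ℤ) (θ - x)) =
      2 * ((arc' θ (θ / 2) (1 / 2)).indicator (1 : C → ℤ) x -
        (arc' θ (θ / 2 + 1 / 2) 1).indicator (1 : C → ℤ) x) := by
  obtain ⟨t, ht, rfl⟩ := exists_rep x
  have n1 : t ≠ 0 := fun h => hx (mem_exc 0 0 (by rw [h]; push_cast; ring))
  have n2 : t ≠ 1 / 2 := fun h => hx (mem_exc 1 0 (by rw [h]; push_cast; ring))
  have n3 : t ≠ θ / 2 := fun h => hx (mem_exc 0 1 (by rw [h]; push_cast; ring))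
  have n4 : t ≠ θ / 2 + 1 / 2 := fun h => hx (mem_exc 1 1 (by rw [h]; push_cast; ring))
  have p0 : 0 < t := lt_of_le_of_ne ht.1 (Ne.symm n1)
  have p1 : t < 1 := ht.2
  have e1 : -(t : C) = ((1 - t : ℝ) : C) := by
    rw [AddCircle.coe_sub, AddCircle.coe_period, zero_sub]
  have m1 : (1 - t) ∈ Ico (0:ℝ) 1 := ⟨by linarith, by linarith⟩
  have a1 := ind_arc (u := 0) (v := 1 / 2) le_rfl (by norm_num) ht
  have a2 := ind_arc (u := 0) (v := 1 / 2) le_rfl (by norm_num) m1
  have a3 := ind_arc (u := θ / 2) (v := θ / 2 + 1 / 2) (by linarith) (by linarith) ht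
  have a4 := ind_arc' (θ := θ) (u := θ / 2) (v := 1 / 2) (by linarith) (by linarith) ht hx
  have a5 := ind_arc' (θ := θ) (u := θ / 2 + 1 / 2) (v := 1) (by linarith) (by linarith) ht hx
  have a6 : (arc (θ / 2) (θ / 2 + 1 / 2)).indicator (1 : C → ℤ) ((θ : C) - t) =
      if t < θ / 2 ∨ θ / 2 + 1 / 2 < t then 1 else 0 := by
    rcases le_or_gt t θ with h | h
    · have e2 : (θ : C) - t = ((θ - t : ℝ) : C) := by simp
      rw [e2, ind_arc (by linarith) (by linarith) ⟨by linarith, by linarith⟩]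
      congr 1
      apply propext
      constructor
      · rintro ⟨h2, h3⟩
        left; linarith
      · rintro (h2 | h2)
        · constructor <;> linarith
        · exfalso; linarith
    · have e2 : (θ : C) - t = ((1 + θ - t : ℝ) : C) := by simp
      rw [e2, ind_arc (by linarith) (by linarith) ⟨by linarith, by linarith⟩]
      congr 1
      apply propext
      constructor
      · rintro ⟨h2, h3⟩
        right; linarith
      · rintro (h2 | h2)
        · exfalso; linarith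
        · constructor <;> linarith
  rw [e1, a1, a2, a3, a4, a5, a6]
  rcases lt_trichotomy t (θ / 2) with h | h | h
  · rw [if_pos ⟨p0, by linarith⟩, if_neg (by rintro ⟨_, _⟩; linarith),
      if_neg (by rintro ⟨_, _⟩; linarith), if_pos (Or.inl h),
      if_neg (by rintro ⟨_, _⟩; linarith), if_neg (by rintro ⟨_, _⟩; linarith)]
    norm_num
  · exact absurd h n3
  rcases lt_trichotomy t (1 / 2) with h' | h' | h'
  · rw [if_pos ⟨p0, by linarith⟩, if_neg (by rintro ⟨_, _⟩; linarith),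
      if_pos ⟨h, by linarith⟩, if_neg (by rintro (_ | _) <;> linarith),
      if_pos ⟨h, h'⟩, if_neg (by rintro ⟨_, _⟩; linarith)]
    norm_num
  · exact absurd h' n2
  rcases lt_trichotomy t (θ / 2 + 1 / 2) with h'' | h'' | h''
  · rw [if_neg (by rintro ⟨_, _⟩; linarith), if_pos ⟨by linarith, by linarith⟩,
      if_pos ⟨h, by linarith⟩, if_neg (by rintro (_ | _) <;> linarith),
      if_neg (by rintro ⟨_, _⟩; linarith), if_neg (by rintro ⟨_, _⟩; linarith)]
    norm_num
  · exact absurd h'' n4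
  · rw [if_neg (by rintro ⟨_, _⟩; linarith), if_pos ⟨by linarith, by linarith⟩,
      if_neg (by rintro ⟨_, _⟩; linarith), if_pos (Or.inr h''),
      if_neg (by rintro ⟨_, _⟩; linarith), if_pos ⟨h'', p1⟩]
    norm_num

theorem not_cob {θ : ℝ} (hθ : Irrational θ) (h0 : 0 < θ) (h1 : θ < 1 / 2) :
    ¬ Cob (θ : C) (fun x => (arc' θ (θ / 2) (1 / 2)).indicator (1 : C → ℤ) x -
        (arc' θ (θ / 2 + 1 / 2) 1).indicator (1 : C → ℤ) x) := by
  rintro ⟨v, w, hv, hw, h⟩
  set R : Set C := arc 0 (1 / 2) with hR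
  set S : Set C := arc (θ / 2) (θ / 2 + 1 / 2) with hS
  set δ : C → ℤ := fun x => 2 * (v x - v (-x)) -
    (R.indicator (1 : C → ℤ) x - R.indicator (1 : C → ℤ) (-x)) with hδ
  set δ' : C → ℤ := fun x => 2 * (w x - w (θ - x)) -
    (S.indicator (1 : C → ℤ) x - S.indicator (1 : C → ℤ) (θ - x)) with hδ'
  have k1 : ∀ x : C, δ (-x) = - δ x := by
    intro x
    simp only [hδ, neg_neg]
    ring
  have k2 : ∀ x : C, δ' ((θ : C) - x) = - δ' x := by
    intro x
    simp only [hδ', sub_sub_cancel]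
    ring
  have k3 : ∀ x : C, x ∉ exc θ → δ x = - δ' x := by
    intro x hx
    have := (key_identity h0 h1 hx).2
    simp only [← hR, ← hS] at this
    have h3 := h x
    simp only [hδ, hδ']
    linarith
  have k4 : ∀ x : C, x ∉ exc θ → δ x ≠ 0 := by
    intro x hx
    have := (key_identity h0 h1 hx).1
    simp only [← hR] at this
    simp only [hδ]
    omega
  have k5 : ∀ x : C, x ∉ exc θ → δ ((θ : C) - x) = - δ x := by
    intro x hx
    rw [k3 _ (fun h => hx (sub_mem_exc_iff.1 h)), k3 _ hx, k2]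
  have hRm : AEMeasurable (R.indicator (1 : C → ℤ)) (volume : Measure C) :=
    aemeasurable_const.indicator (measurableSet_arc _ _)
  have hn : Measure.QuasiMeasurePreserving (fun x : C => -x) volume volume :=
    (Measure.measurePreserving_neg (volume : Measure C)).quasiMeasurePreserving
  have hδm : AEMeasurable δ (volume : Measure C) :=
    ((hv.sub (hv.comp_quasiMeasurePreserving hn)).const_mul 2).sub
      (hRm.sub (hRm.comp_quasiMeasurePreserving hn))
  clear_value δ δ'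
  have hpos : NullMeasurableSet (δ ⁻¹' Ioi 0) (volume : Measure C) :=
    hδm.nullMeasurable measurableSet_Ioi
  refine no_orientation hθ (E := exc θ) (O := (exc θ)ᶜ ∩ δ ⁻¹' Ioi 0) (countable_exc θ)
    (fun x => add_mem_exc_iff) (fun x hx => hx.1) ?_ ?_ ?_
  · intro x hx
    have h3 := k4 x hx
    simp only [mem_inter_iff, mem_compl_iff, mem_preimage, mem_Ioi, neg_mem_exc_iff, hx,
      not_false_eq_true, true_and, k1, not_lt]
    omega
  · intro x hx
    have h4 : (θ : C) + x = (θ : C) - (-x) := by abel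
    have h5 : δ ((θ : C) + x) = δ x := by
      rw [h4, k5 _ (fun h => hx (neg_mem_exc_iff.1 h)), k1, neg_neg]
    simp only [mem_inter_iff, mem_compl_iff, mem_preimage, mem_Ioi, add_mem_exc_iff, h5]
  · exact ((countable_exc θ).measurableSet.compl.nullMeasurableSet).inter hpos

theorem two_tau {θ : ℝ} (h0 : 0 < θ) (h1 : θ < 1 / 2) {H : Subgroup (Equiv.Perm C)}
    (hr : Equiv.neg C ∈ H) (hs : Equiv.subLeft (θ : C) ∈ H) (𝒜 : InvAlgebra H C)
    (hB : ∀ A : Set C, MeasurableSet A → A ∈ 𝒜.sets) :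
    tau 𝒜 (arc' θ (θ / 2) (1 / 2)) (hB _ (measurableSet_arc' _ _ _)) +
      tau 𝒜 (arc' θ (θ / 2) (1 / 2)) (hB _ (measurableSet_arc' _ _ _)) =
    tau 𝒜 (arc' θ (θ / 2 + 1 / 2) 1) (hB _ (measurableSet_arc' _ _ _)) +
      tau 𝒜 (arc' θ (θ / 2 + 1 / 2) 1) (hB _ (measurableSet_arc' _ _ _)) := by
  set T : ℝ → ℝ → Types 𝒜 := fun u v => tau 𝒜 (arc' θ u v) (hB _ (measurableSet_arc' θ u v))
    with hT
  have hneg : ∀ u v, T (1 - v) (1 - u) = T u v := fun u v =>
    tau_image 𝒜 _ _ (⟨Equiv.neg C, hr⟩ : H) (arc'_neg θ u v)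
  have hsub : ∀ u v, T (1 + θ - v) (1 + θ - u) = T u v := fun u v =>
    tau_image 𝒜 _ _ (⟨Equiv.subLeft (θ : C), hs⟩ : H) (arc'_sub θ u v)
  have hone : ∀ u v, T (u + 1) (v + 1) = T u v := fun u v =>
    tau_congr 𝒜 _ _ (by rw [arc', arc', arc_add_one])
  have hsplit : ∀ u v w : ℝ, 0 ≤ u → u ≤ v → v ≤ w → w ≤ 1 → (v : C) ∈ exc θ →
      T u w = T u v + T v w := by
    intro u v w hu huv hvw hw hv
    obtain ⟨e1, e2⟩ := arc'_split hu huv hvw hw hv
    exact tau_union 𝒜 _ _ _ e1 e2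
  have c1 : T (θ / 2) (1 / 2) = T (θ / 2) (1 / 2 - θ / 2) + T (1 / 2 - θ / 2) (1 / 2) :=
    hsplit _ _ _ (by linarith) (by linarith) (by linarith) (by norm_num)
      (mem_exc 1 (-1) (by push_cast; ring))
  have c2 : T (θ / 2) (1 / 2) = T (θ / 2) θ + T θ (1 / 2) :=
    hsplit _ _ _ (by linarith) (by linarith) (by linarith) (by norm_num)
      (mem_exc 0 2 (by push_cast; ring))
  have c3 : T (θ / 2 + 1 / 2) 1 = T (θ / 2 + 1 / 2) (1 - θ / 2) + T (1 - θ / 2) 1 :=
    hsplit _ _ _ (by linarith) (by linarith) (by linarith) (by norm_num)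
      (mem_exc 2 (-1) (by push_cast; ring))
  have c4 : T (θ / 2 + 1 / 2) 1 = T (θ / 2 + 1 / 2) (θ + 1 / 2) + T (θ + 1 / 2) 1 :=
    hsplit _ _ _ (by linarith) (by linarith) (by linarith) (by norm_num)
      (mem_exc 1 2 (by push_cast; ring))
  have d1 : T (θ / 2 + 1 / 2) (1 - θ / 2) = T (θ / 2) (1 / 2 - θ / 2) := by
    have := hneg (θ / 2) (1 / 2 - θ / 2)
    rw [show 1 - (1 / 2 - θ / 2) = θ / 2 + 1 / 2 by ring] at this
    exact this
  have d2 : T (θ / 2 + 1 / 2) (θ + 1 / 2) = T (1 / 2 - θ / 2) (1 / 2) := by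
    have e1 := hneg (1 / 2 - θ / 2) (1 / 2)
    have e2 := hsub (1 - 1 / 2) (1 - (1 / 2 - θ / 2))
    rw [show 1 + θ - (1 - (1 / 2 - θ / 2)) = θ / 2 + 1 / 2 by ring,
      show 1 + θ - (1 - 1 / 2) = θ + 1 / 2 by ring] at e2
    exact e2.trans e1
  have d3 : T (θ + 1 / 2) 1 = T θ (1 / 2) := by
    have e2 := hsub θ (1 / 2)
    rw [show 1 + θ - 1 / 2 = θ + 1 / 2 by ring, show 1 + θ - θ = 1 by ring] at e2
    exact e2
  have d4 : T (1 - θ / 2) 1 = T (θ / 2) θ := by
    have e1 := hsub (θ / 2) θ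
    have e2 := hneg (1 + θ - θ) (1 + θ - θ / 2)
    have e3 := hone (1 - (1 + θ - θ / 2)) (1 - (1 + θ - θ))
    rw [show 1 - (1 + θ - θ / 2) + 1 = 1 - θ / 2 by ring,
      show 1 - (1 + θ - θ) + 1 = 1 by ring] at e3
    exact e3.trans (e2.trans e1)
  change T (θ / 2) (1 / 2) + T (θ / 2) (1 / 2) = T (θ / 2 + 1 / 2) 1 + T (θ / 2 + 1 / 2) 1
  nth_rewrite 1 [c1]
  rw [c2]
  nth_rewrite 1 [c3]
  rw [c4, d1, d2, d3, d4]
  abel

theorem exists_not_nullMeasurable {θ : ℝ} (hθ : Irrational θ) :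
    ∃ O : Set C, ¬ NullMeasurableSet O (volume : Measure C) := by
  let mk : C → C ⧸ AddSubgroup.zmultiples (θ : C) := QuotientAddGroup.mk
  have m1 : ∀ x : C, mk ((θ : C) + x) = mk x := by
    intro x
    apply QuotientAddGroup.eq.2
    rw [AddSubgroup.mem_zmultiples_iff]
    exact ⟨-1, by rw [neg_one_zsmul]; abel⟩
  have m2 : ∀ x : C, mk (-((θ : C) + x)) = mk (-x) := by
    intro x
    apply QuotientAddGroup.eq.2
    rw [AddSubgroup.mem_zmultiples_iff]
    exact ⟨1, by rw [one_zsmul]; abel⟩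
  have m3 : ∀ x : C, x ∉ exc θ → mk x ≠ mk (-x) := by
    intro x hx h
    have h' := QuotientAddGroup.eq.1 h
    rw [AddSubgroup.mem_zmultiples_iff] at h'
    obtain ⟨n, hn⟩ := h'
    obtain ⟨t, ht, rfl⟩ := exists_rep x
    have h1 : ((n * θ + 2 * t : ℝ) : C) = 0 := by
      rw [AddCircle.coe_add, two_mul, AddCircle.coe_add]
      have : ((n * θ : ℝ) : C) = n • (θ : C) := by
        rw [← AddCircle.coe_zsmul, zsmul_eq_mul]
      rw [this, hn]
      abel
    rw [AddCircle.coe_eq_zero_iff] at h1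
    obtain ⟨m, hm⟩ := h1
    refine hx (mem_exc m (-n) ?_)
    rw [zsmul_eq_mul, mul_one] at hm
    rw [hm]
    push_cast
    ring
  refine ⟨{x | x ∉ exc θ ∧ WellOrderingRel (mk x) (mk (-x))}, ?_⟩
  refine no_orientation hθ (countable_exc θ) (fun x => add_mem_exc_iff) (fun x hx => hx.1) ?_ ?_
  · intro x hx
    simp only [mem_ofPred_eq, neg_mem_exc_iff, hx, not_false_eq_true, true_and, neg_neg]
    constructor
    · intro h h'
      exact asymm h h'
    · intro h
      rcases trichotomous_of WellOrderingRel (mk x) (mk (-x)) with h' | h' | h'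
      · exact absurd h' h
      · exact absurd h' (m3 x hx)
      · exact h'
  · intro x hx
    simp only [mem_ofPred_eq, add_mem_exc_iff, m1, m2]

theorem main {θ : ℝ} (hθ : Irrational θ) (h0 : 0 < θ) (h1 : θ < 1 / 2) {a : C}
    (ha : D a = D (θ : C)) (𝒜 : InvAlgebra (D a) C)
    (hB : ∀ A : Set C, MeasurableSet A → A ∈ 𝒜.sets)
    (hN : ∀ A ∈ 𝒜.sets, NullMeasurableSet A (volume : Measure C)) :
    ∃ α β : Types 𝒜, 2 • α = 2 • β ∧ α ≠ β := by
  have hr : Equiv.neg C ∈ D a := Subgroup.subset_closure (by simp)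
  have hs : Equiv.subLeft (θ : C) ∈ D a := by
    rw [ha]
    exact Subgroup.subset_closure (by simp)
  refine ⟨tau 𝒜 (arc' θ (θ / 2) (1 / 2)) (hB _ (measurableSet_arc' _ _ _)),
    tau 𝒜 (arc' θ (θ / 2 + 1 / 2) 1) (hB _ (measurableSet_arc' _ _ _)), ?_, ?_⟩
  · rw [two_nsmul, two_nsmul]
    exact two_tau h0 h1 hr hs 𝒜 hB
  · intro h
    rw [tau, tau, typeOf_eq_iff] at h
    obtain ⟨ι, hι, P, g, hP, hx⟩ := indicator_of_equidec 𝒜 h
    apply not_cob hθ h0 h1
    have hc : ∀ i, Cob (θ : C) (fun x => (P i).indicator (1 : C → ℤ) x -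
        (P i).indicator (1 : C → ℤ) ((g i)⁻¹ • x)) := by
      intro i
      have hg : ((g i)⁻¹ : Equiv.Perm C) ∈ D (θ : C) := by
        rw [← ha]
        exact inv_mem (g i).2
      exact cob_of_mem hg _ (aemeasurable_const.indicator₀ (hN _ (hP i)))
    have hs := Cob.sum Finset.univ _ hc
    convert hs using 2 with x
    exact hx x

theorem D_neg_le (a : C) : D (-a) ≤ D a := by
  have hr : Equiv.neg C ∈ D a := Subgroup.subset_closure (by simp)
  have hs : Equiv.subLeft a ∈ D a := Subgroup.subset_closure (by simp)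
  rw [D, Subgroup.closure_le]
  rintro g (rfl | rfl)
  · exact hr
  · have : Equiv.subLeft (-a) = Equiv.neg C * Equiv.subLeft a * Equiv.neg C := by
      ext x
      change -a - x = -(a - (-x))
      abel
    rw [this]
    exact mul_mem (mul_mem hr hs) hr

theorem D_neg (a : C) : D (-a) = D a :=
  le_antisymm (D_neg_le a) (by simpa using D_neg_le (-a))

theorem exists_reduced {θ : ℝ} (hθ : Irrational θ) :
    ∃ φ : ℝ, Irrational φ ∧ 0 < φ ∧ φ < 1 / 2 ∧ D (θ : C) = D (φ : C) := by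
  have h1 : Irrational (θ - round θ) := hθ.sub_intCast _
  have h2 : |θ - round θ| ≤ 1 / 2 := abs_sub_round θ
  have h3 : ((θ - round θ : ℝ) : C) = (θ : C) := by
    rw [AddCircle.coe_sub]
    have : (((round θ : ℤ) : ℝ) : C) = 0 := by
      rw [AddCircle.coe_eq_zero_iff]
      exact ⟨round θ, by simp⟩
    rw [this, sub_zero]
  set φ := θ - round θ with hφ
  have h4 : φ ≠ 0 := by
    intro h
    rw [h] at h1
    exact not_irrational_zero h1
  have h5 : φ ≠ 1 / 2 := by
    intro h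
    have := (irrational_iff_ne_rational φ).1 h1 1 2
    apply this
    · norm_num
    · rw [h]; norm_num
  have h6 : φ ≠ -1 / 2 := by
    intro h
    have := (irrational_iff_ne_rational φ).1 h1 (-1) 2
    apply this
    · norm_num
    · rw [h]; norm_num
  rcases lt_or_gt_of_ne h4 with h | h
  · refine ⟨-φ, h1.neg, by linarith, ?_, ?_⟩
    · rw [abs_of_neg h] at h2
      refine lt_of_le_of_ne h2 fun h' => h6 (by linarith)
    · rw [AddCircle.coe_neg, h3, D_neg]
  · refine ⟨φ, h1, h, ?_, ?_⟩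
    · rw [abs_of_pos h] at h2
      exact lt_of_le_of_ne h2 h5
    · rw [h3]

theorem image_eq_preimage (a : C) (g : D a) (A : Set C) :
    (fun x : C => g • x) '' A = ((g : Equiv.Perm C)⁻¹ : Equiv.Perm C) ⁻¹' A := by
  ext x
  constructor
  · rintro ⟨y, hy, rfl⟩
    rw [mem_preimage]
    convert hy using 1
    exact (g : Equiv.Perm C).symm_apply_apply y
  · intro hx
    exact ⟨_, hx, (g : Equiv.Perm C).apply_symm_apply x⟩

/-- The Borel subsets of the circle. -/
def borelAlg (a : C) : InvAlgebra (D a) C where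
  sets := {A | MeasurableSet A}
  empty_mem := by
    rw [mem_ofPred_eq]
    exact MeasurableSet.empty
  univ_mem := by
    rw [mem_ofPred_eq]
    exact MeasurableSet.univ
  union_mem A hA B hB := by
    rw [mem_ofPred_eq] at *
    exact hA.union hB
  inter_mem A hA B hB := by
    rw [mem_ofPred_eq] at *
    exact hA.inter hB
  compl_mem A hA := by
    rw [mem_ofPred_eq] at *
    exact hA.compl
  image_mem g A hA := by
    rw [image_eq_preimage]
    exact (mp_of_mem g.2).2.measurable hA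

/-- The Lebesgue measurable subsets of the circle. -/
def lebesgueAlg (a : C) : InvAlgebra (D a) C where
  sets := {A | NullMeasurableSet A (volume : Measure C)}
  empty_mem := MeasurableSet.empty.nullMeasurableSet
  univ_mem := MeasurableSet.univ.nullMeasurableSet
  union_mem _ hA _ hB := NullMeasurableSet.union hA hB
  inter_mem _ hA _ hB := NullMeasurableSet.inter hA hB
  compl_mem _ hA := NullMeasurableSet.compl hA
  image_mem g A hA := by
    rw [image_eq_preimage]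
    exact NullMeasurableSet.preimage hA (mp_of_mem g.2).2.quasiMeasurePreserving

theorem circle_result (θ : ℝ) (hθ : Irrational θ) :
    (∃ 𝒜 : InvAlgebra (D (θ : C)) C, 𝒜.sets = {A | MeasurableSet A}) ∧
    (∃ 𝒜 : InvAlgebra (D (θ : C)) C,
      𝒜.sets = {A | NullMeasurableSet A (volume : Measure C)}) ∧
    ∀ 𝒜 : InvAlgebra (D (θ : C)) C, {A | MeasurableSet A} ⊆ 𝒜.sets →
      𝒜.sets ⊆ {A | NullMeasurableSet A (volume : Measure C)} →
      𝒜.sets ≠ univ ∧ (∃ α β : Types 𝒜, 2 • α = 2 • β ∧ α ≠ β) ∧ ¬ CancellationLaw 𝒜 := by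
  refine ⟨⟨borelAlg _, rfl⟩, ⟨lebesgueAlg _, rfl⟩, fun 𝒜 hB hN => ?_⟩
  obtain ⟨φ, h1, h2, h3, h4⟩ := exists_reduced hθ
  obtain ⟨α, β, h5, h6⟩ := main h1 h2 h3 h4 𝒜 (fun A hA => hB hA) (fun A hA => hN hA)
  refine ⟨fun h => ?_, ⟨α, β, h5, h6⟩, fun h => h6 (h 2 (by norm_num) α β h5)⟩
  obtain ⟨O, hO⟩ := exists_not_nullMeasurable hθ
  exact hO (hN (h ▸ mem_univ O))

end Circle

/-- **The cancellation law fails for restricted pieces.**  First conjunct: there are a group `G`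
acting on a set `X` and a proper `G`-invariant subalgebra `𝒜` of the power set of `X` such that
the cancellation law fails in `𝒮(𝒜)`.  Second conjunct: for every irrational `θ`, the group
`D θ` generated by the two reflections `x ↦ -x` and `x ↦ θ - x` of the circle has this property
with *every* invariant algebra `𝒜` which contains all Borel sets and consists of Lebesgue
measurable sets (for instance the Borel sets, or the Lebesgue measurable sets): it is proper and
there are two types with `2α = 2β` and `α ≠ β`. -/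
theorem result :
    (∃ (G X : Type) (_ : Group G) (_ : MulAction G X) (𝒜 : InvAlgebra G X),
      𝒜.sets ≠ univ ∧ ¬ CancellationLaw 𝒜) ∧
    ∀ θ : ℝ, Irrational θ →
      (∃ 𝒜 : InvAlgebra (D (θ : C)) C, 𝒜.sets = {A | MeasurableSet A}) ∧
      (∃ 𝒜 : InvAlgebra (D (θ : C)) C,
        𝒜.sets = {A | NullMeasurableSet A (volume : Measure C)}) ∧
      ∀ 𝒜 : InvAlgebra (D (θ : C)) C, {A | MeasurableSet A} ⊆ 𝒜.sets →
        𝒜.sets ⊆ {A | NullMeasurableSet A (volume : Measure C)} →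
        𝒜.sets ≠ univ ∧ (∃ α β : Types 𝒜, 2 • α = 2 • β ∧ α ≠ β) ∧ ¬ CancellationLaw 𝒜 := by
  refine ⟨?_, fun θ hθ => circle_result θ hθ⟩
  obtain ⟨⟨𝒜, h𝒜⟩, -, h⟩ := circle_result (√2) irrational_sqrt_two
  have h2 := h 𝒜 h𝒜.ge (by rw [h𝒜]; exact fun A hA => MeasurableSet.nullMeasurableSet hA)
  exact ⟨_, _, inferInstance, inferInstance, 𝒜, h2.1, h2.2.2⟩

end Pool.Agent.Results.MP_3fd8c4_al.CircleReflections
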